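import Pool.Agent.Helper90.BSC.Base

/-!
# TAME3
-/

set_option autoImplicit false

namespace Pool.Agent.Helper14.BSC

section

variable {k Ω : Type} [Field k] [Field Ω] [Algebra k Ω] {p : ℕ} [Fact p.Prime]

theorem tame3_nm_mul (Lc : Loc k Ω p) (x y : Acl k Ω) : nm Lc (x * y) = nm Lc x * nm Lc y := by
  unfold nm
  rw [map_mul, norm_mul]

theorem tame3_nm_inv (Lc : Loc k Ω p) (x : Acl k Ω) : nm Lc x⁻¹ = (nm Lc x)⁻¹ := by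
  unfold nm
  rw [map_inv₀, norm_inv]

theorem tame3_nm_zpow (Lc : Loc k Ω p) (x : Acl k Ω) (j : ℤ) : nm Lc (x ^ j) = nm Lc x ^ j := by
  unfold nm
  rw [map_zpow₀, norm_zpow]

/-- classes modulo cubes -/
theorem tame3_cls (hKUM : ST_KUM) (hPRU : ST_PRU) [CharZero k] [IsAlgClosed Ω] (D : Sec k Ω)
    (hp3 : p ≠ 3) (Lc : Loc k Ω p) (ϖ : Acl k Ω) (τ : GG k Ω) (T : TameD Lc ϖ τ)
    (G : Good Lc (Lc.S₁ ∪ {ϖ}) ϖ) (z : NN D (Lc.S₁ ∪ {ϖ})) (hz : z ≠ 0) :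
    ∃ (c : NN D Lc.S₁) (t : NN D (Lc.S₁ ∪ {ϖ})), z = tameInc D Lc ϖ c * t ^ 3 := by
  have hpp : p.Prime := Fact.out
  have h3 : ¬ p ∣ 3 := fun h => hp3 ((Nat.prime_dvd_prime_iff_eq hpp Nat.prime_three).1 h)
  obtain ⟨c, hc0, y, hy0, hzy⟩ := hKUM k Ω D (Lc.S₁ ∪ {ϖ}) 3 (by norm_num) z hz
  have hc0' : (c : Acl k Ω) ≠ 0 := fun h => hc0 (Subtype.ext h)
  obtain ⟨j, u, hu, hu1, hap⟩ := G.apx c c.2 hc0'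
  have hϖ0 : ϖ ≠ 0 := T.ne
  have hu0 : u ≠ 0 := by
    rintro rfl
    unfold nm at hu1
    rw [map_zero, norm_zero] at hu1
    exact zero_ne_one hu1
  -- the one-unit
  have hsmall : nm Lc ((c : Acl k Ω) / (u * ϖ ^ j) - 1) < 1 := by
    have h0 : u * ϖ ^ j ≠ 0 := mul_ne_zero hu0 (zpow_ne_zero _ hϖ0)
    have h1 : (c : Acl k Ω) / (u * ϖ ^ j) - 1 = (c - u * ϖ ^ j) * (u * ϖ ^ j)⁻¹ := by
      field_simp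
    rw [h1, tame3_nm_mul, tame3_nm_inv, tame3_nm_mul, hu1, one_mul, tame3_nm_zpow]
    have h2 : 0 < nm Lc ϖ ^ j := zpow_pos G.pos j
    rw [← div_eq_mul_inv, div_lt_one h2]
    exact hap
  have huF : u ∈ FF (Lc.S₁ ∪ {ϖ}) := FF_le (tame_sub Lc ϖ) hu
  have hmem : (c : Acl k Ω) / (u * ϖ ^ j) ∈ FF (Lc.S₁ ∪ {ϖ}) :=
    div_mem c.2 (mul_mem huF (zpow_mem G.mem j))
  obtain ⟨v, hv⟩ := hPRU k Ω p Lc (Lc.S₁ ∪ {ϖ}) (tame_sub Lc ϖ) 3 h3 ⟨_, hmem⟩ hsmall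
  have hv' : (c : Acl k Ω) = u * ϖ ^ j * (v : Acl k Ω) ^ 3 := by
    have h4 : (c : Acl k Ω) / (u * ϖ ^ j) = (v : Acl k Ω) ^ 3 := congrArg Subtype.val hv
    have h0 : u * ϖ ^ j ≠ 0 := mul_ne_zero hu0 (zpow_ne_zero _ hϖ0)
    rw [← h4, mul_div_cancel₀ _ h0]
  -- Bezout
  have hcop : IsCoprime (p : ℤ) 3 := by
    rw [Int.isCoprime_iff_gcd_eq_one]
    have : Nat.gcd p 3 = 1 := (Nat.Prime.coprime_iff_not_dvd hpp).2 h3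
    exact_mod_cast this
  obtain ⟨a, b, hab⟩ := hcop
  have hϖj : ϖ ^ j = (ϖ ^ p) ^ (a * j) * (ϖ ^ (b * j)) ^ 3 := by
    rw [← zpow_natCast ϖ p, ← zpow_mul, ← zpow_natCast (ϖ ^ (b * j)) 3, ← zpow_mul,
      ← zpow_add₀ hϖ0]
    congr 1
    have : (p : ℤ) * (a * j) + b * j * ((3 : ℕ) : ℤ) = (a * p + b * 3) * j := by push_cast; ring
    rw [this, hab, one_mul]
  have hc1 : u * (ϖ ^ p) ^ (a * j) ∈ FF Lc.S₁ := mul_mem hu (zpow_mem T.pw _)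
  have hw : ϖ ^ (b * j) * (v : Acl k Ω) ∈ FF (Lc.S₁ ∪ {ϖ}) := mul_mem (zpow_mem G.mem _) v.2
  refine ⟨inc D Lc.S₁ ⟨_, hc1⟩, inc D (Lc.S₁ ∪ {ϖ}) ⟨_, hw⟩ * y, ?_⟩
  rw [hzy, mul_pow, ← mul_assoc]
  congr 1
  rw [tameInc_inc, ← map_pow, ← map_mul]
  congr 1
  apply Subtype.ext
  show (c : Acl k Ω) = u * (ϖ ^ p) ^ (a * j) * (ϖ ^ (b * j) * (v : Acl k Ω)) ^ 3
  rw [hv', hϖj]
  ring

end

theorem st_TAME3 (hRIG3 : ST_RIG3) (hRAM3 : ST_RAM3) (hASY3 : ST_ASY3) (hGD1 : ST_GD1)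
    (hGD2 : ST_GD2) (hRIGN3 : ST_RIGN3) (hOF3 : ST_OF3) (hKUM : ST_KUM) (hPRU : ST_PRU) :
    ST_TAME3 := by
  intro k Ω _ _ _ _ _ D p _ hp3 Lc
  obtain ⟨e0, he0⟩ := hASY3 k Ω p hp3 Lc
  obtain ⟨e, rfl⟩ : ∃ e : FF Lc.S₁, (e : Acl k Ω) = e0 := ⟨⟨e0, he0.1⟩, rfl⟩
  have hr1 : Rigid3 (inc D Lc.S₁ e) :=
    hRIGN3 k Ω D p hp3 Lc Lc.S₁ Lc.π (hGD1 k Ω p Lc) e he0
  obtain ⟨O₁, hO₁⟩ := hRIG3 (NN D Lc.S₁) _ hr1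
  refine ⟨O₁, tame_final D Lc O₁ (hOF3 k Ω D p hp3 Lc e he0 O₁ hO₁)
    (fun M _ e x => RigO3 e x) (fun M _ σ e x he h => tame_RigO3 σ e x he h) e hO₁ ?_⟩
  intro c₀ ϖ hc₀ hn hϖ
  obtain ⟨G, τ, hτ, hm⟩ := hGD2 k Ω p Lc c₀ ϖ hc₀ hn hϖ
  have T : TameD Lc ϖ τ := tame_data Lc c₀ ϖ hc₀ hn hϖ τ hτ hm
  have hr2 : Rigid3 (inc D (Lc.S₁ ∪ {ϖ}) (tameE Lc ϖ e)) :=
    hRIGN3 k Ω D p hp3 Lc (Lc.S₁ ∪ {ϖ}) ϖ G (tameE Lc ϖ e) he0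
  obtain ⟨O₂, hO₂⟩ := hRIG3 (NN D (Lc.S₁ ∪ {ϖ})) _ hr2
  refine ⟨τ, T, O₂, hO₂, ?_⟩
  intro x
  have hpp : p.Prime := Fact.out
  have h3 : ¬ 3 ∣ p := fun h => hp3 ((Nat.prime_dvd_prime_iff_eq Nat.prime_three hpp).1 h).symm
  exact hRAM3 (NN D Lc.S₁) (NN D (Lc.S₁ ∪ {ϖ})) (tameInc D Lc ϖ) (tameAct D T τ T.mem) p h3
    hpp.pos (tame_fixed D T) (tame_order D T)
    (fun z hz => tame3_cls hKUM hPRU D hp3 Lc ϖ τ T G z hz) (inc D Lc.S₁ e) hr1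
    hr2 x

end Pool.Agent.Helper14.BSC
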