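import Pool.Agent.Helper14.BSC.Stmts

/-!
# Common facts for TAME2 and TAME3: action of `Stab S₁` on `NN D (S₁ ∪ {ϖ})`
-/

set_option autoImplicit false

namespace Pool.Agent.Helper14.BSC

section

variable {k Ω : Type} [Field k] [Field Ω] [Algebra k Ω] {p : ℕ} [Fact p.Prime]

theorem tame_sub (Lc : Loc k Ω p) (ϖ : Acl k Ω) : Stab (Lc.S₁ ∪ {ϖ}) ≤ Stab Lc.S₁ :=
  fun _ hg a ha => hg a (Or.inl ha)

/-- the data of TAME: a radical `ϖ` over `FF S₁` moved by `τ` -/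
structure TameD (Lc : Loc k Ω p) (ϖ : Acl k Ω) (τ : GG k Ω) : Prop where
  ne : ϖ ≠ 0
  pw : ϖ ^ p ∈ FF Lc.S₁
  mem : τ ∈ Stab Lc.S₁
  mv : τ ϖ = Lc.ζ * ϖ

theorem tame_zeta (Lc : Loc k Ω p) {g : GG k Ω} (hg : g ∈ Stab Lc.S₁) (i : ℕ) :
    g (Lc.ζ ^ i) = Lc.ζ ^ i := by
  rw [map_pow, Lc.memζ g hg]

theorem tame_root {Lc : Loc k Ω p} {ϖ : Acl k Ω} {τ : GG k Ω} (T : TameD Lc ϖ τ) {g : GG k Ω}
    (hg : g ∈ Stab Lc.S₁) : ∃ i : ℕ, g ϖ = Lc.ζ ^ i * ϖ := by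
  have hp : 0 < p := (Fact.out : p.Prime).pos
  have h1 : (g ϖ / ϖ) ^ p = 1 := by
    rw [div_pow, ← map_pow, T.pw g hg, div_self (pow_ne_zero _ T.ne)]
  obtain ⟨i, _, hi⟩ := Lc.prim.eq_pow_of_pow_eq_one h1
  refine ⟨i, ?_⟩
  rw [hi, div_mul_cancel₀ _ T.ne]

theorem tame_pow {Lc : Loc k Ω p} {ϖ : Acl k Ω} {τ : GG k Ω} (T : TameD Lc ϖ τ) (i : ℕ) :
    (τ ^ i) ϖ = Lc.ζ ^ i * ϖ := by
  induction i with
  | zero => simp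
  | succ n ih =>
    rw [pow_succ', AlgEquiv.mul_apply, ih, map_mul, tame_zeta Lc T.mem, T.mv, pow_succ]
    ring

theorem tame_fix {Lc : Loc k Ω p} {ϖ : Acl k Ω} {g : GG k Ω} :
    g ∈ Stab (Lc.S₁ ∪ {ϖ}) ↔ g ∈ Stab Lc.S₁ ∧ g ϖ = ϖ := by
  constructor
  · intro h
    exact ⟨tame_sub Lc ϖ h, h ϖ (Or.inr rfl)⟩
  · rintro ⟨h1, h2⟩ a ha
    rcases ha with ha | ha
    · exact h1 a ha
    · rw [Set.mem_singleton_iff] at ha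
      rw [ha, h2]

theorem tame_conj {Lc : Loc k Ω p} {ϖ : Acl k Ω} {τ : GG k Ω} (T : TameD Lc ϖ τ) {g h : GG k Ω}
    (hg : g ∈ Stab Lc.S₁) (hh : h ∈ Stab (Lc.S₁ ∪ {ϖ})) :
    g⁻¹ * h * g ∈ Stab (Lc.S₁ ∪ {ϖ}) := by
  have hh' := tame_fix.1 hh
  refine tame_fix.2 ⟨mul_mem (mul_mem (inv_mem hg) hh'.1) hg, ?_⟩
  obtain ⟨i, hi⟩ := tame_root T hg
  rw [AlgEquiv.mul_apply, AlgEquiv.mul_apply, hi, map_mul, tame_zeta Lc hh'.1, hh'.2, ← hi,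
    ← AlgEquiv.mul_apply, inv_mul_cancel]
  rfl

theorem tame_maps (D : Sec k Ω) {Lc : Loc k Ω p} {ϖ : Acl k Ω} {τ : GG k Ω} (T : TameD Lc ϖ τ)
    {g : GG k Ω} (hg : g ∈ Stab Lc.S₁) {x : Ω} (hx : x ∈ NN D (Lc.S₁ ∪ {ϖ})) :
    D.s g x ∈ NN D (Lc.S₁ ∪ {ϖ}) := by
  intro h hh
  have h1 := hx _ (tame_conj T hg hh)
  have h2 : D.s h (D.s g x) = D.s g (D.s (g⁻¹ * h * g) x) := by
    rw [← AlgEquiv.mul_apply, ← AlgEquiv.mul_apply, ← map_mul, ← map_mul]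
    congr 2
    group
  rw [h2, h1]

/-- the action of `g ∈ Stab S₁` on `NN D (S₁ ∪ {ϖ})` -/
noncomputable def tameAct (D : Sec k Ω) {Lc : Loc k Ω p} {ϖ : Acl k Ω} {τ : GG k Ω}
    (T : TameD Lc ϖ τ) (g : GG k Ω) (hg : g ∈ Stab Lc.S₁) :
    NN D (Lc.S₁ ∪ {ϖ}) ≃+* NN D (Lc.S₁ ∪ {ϖ}) where
  toFun x := ⟨D.s g x, tame_maps D T hg x.2⟩
  invFun x := ⟨D.s g⁻¹ x, tame_maps D T (inv_mem hg) x.2⟩
  left_inv x := by
    apply Subtype.ext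
    show D.s g⁻¹ (D.s g x) = x
    rw [← AlgEquiv.mul_apply, ← map_mul, inv_mul_cancel, map_one]
    rfl
  right_inv x := by
    apply Subtype.ext
    show D.s g (D.s g⁻¹ x) = x
    rw [← AlgEquiv.mul_apply, ← map_mul, mul_inv_cancel, map_one]
    rfl
  map_mul' x y := Subtype.ext (map_mul (D.s g) (x : Ω) (y : Ω))
  map_add' x y := Subtype.ext (map_add (D.s g) (x : Ω) (y : Ω))

theorem coe_tameAct (D : Sec k Ω) {Lc : Loc k Ω p} {ϖ : Acl k Ω} {τ : GG k Ω}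
    (T : TameD Lc ϖ τ) (g : GG k Ω) (hg : g ∈ Stab Lc.S₁) (x : NN D (Lc.S₁ ∪ {ϖ})) :
    ((tameAct D T g hg x : NN D (Lc.S₁ ∪ {ϖ})) : Ω) = D.s g x := rfl

theorem tameAct_pow (D : Sec k Ω) {Lc : Loc k Ω p} {ϖ : Acl k Ω} {τ : GG k Ω}
    (T : TameD Lc ϖ τ) (g : GG k Ω) (hg : g ∈ Stab Lc.S₁) (n : ℕ) (x : NN D (Lc.S₁ ∪ {ϖ})) :
    ((((tameAct D T g hg) ^ n) x : NN D (Lc.S₁ ∪ {ϖ})) : Ω) = D.s (g ^ n) x := by
  induction n with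
  | zero => simp
  | succ n ih =>
    rw [pow_succ', RingAut.mul_apply, coe_tameAct, ih, pow_succ', map_mul, AlgEquiv.mul_apply]

/-- the inclusion `NN D S₁ → NN D (S₁ ∪ {ϖ})` -/
noncomputable def tameInc (D : Sec k Ω) (Lc : Loc k Ω p) (ϖ : Acl k Ω) :
    NN D Lc.S₁ →+* NN D (Lc.S₁ ∪ {ϖ}) :=
  (IntermediateField.inclusion (NN_le D (tame_sub Lc ϖ))).toRingHom

theorem coe_tameInc (D : Sec k Ω) (Lc : Loc k Ω p) (ϖ : Acl k Ω) (x : NN D Lc.S₁) :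
    ((tameInc D Lc ϖ x : NN D (Lc.S₁ ∪ {ϖ})) : Ω) = x := rfl

theorem tame_fixed (D : Sec k Ω) {Lc : Loc k Ω p} {ϖ : Acl k Ω} {τ : GG k Ω}
    (T : TameD Lc ϖ τ) (x : NN D (Lc.S₁ ∪ {ϖ})) :
    tameAct D T τ T.mem x = x ↔ x ∈ (tameInc D Lc ϖ).range := by
  constructor
  · intro hx
    have hx' : D.s τ x = x := congrArg Subtype.val hx
    have hpow : ∀ i : ℕ, D.s (τ ^ i) x = x := by
      intro i
      induction i with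
      | zero => simp
      | succ n ih => rw [pow_succ, map_mul, AlgEquiv.mul_apply, hx', ih]
    have hmem : (x : Ω) ∈ NN D Lc.S₁ := by
      intro g hg
      obtain ⟨i, hi⟩ := tame_root T hg
      have h1 : (τ ^ i)⁻¹ * g ∈ Stab (Lc.S₁ ∪ {ϖ}) := by
        refine tame_fix.2 ⟨mul_mem (inv_mem (pow_mem T.mem i)) hg, ?_⟩
        rw [AlgEquiv.mul_apply, hi, ← tame_pow T i, ← AlgEquiv.mul_apply, inv_mul_cancel]
        rfl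
      have h2 := x.2 _ h1
      have h3 : D.s g x = D.s (τ ^ i) (D.s ((τ ^ i)⁻¹ * g) x) := by
        rw [← AlgEquiv.mul_apply, ← map_mul]
        congr 2
        group
      rw [h3, h2, hpow i]
    exact ⟨⟨x, hmem⟩, Subtype.ext rfl⟩
  · rintro ⟨y, rfl⟩
    apply Subtype.ext
    rw [coe_tameAct, coe_tameInc]
    exact y.2 τ T.mem

theorem tame_order (D : Sec k Ω) {Lc : Loc k Ω p} {ϖ : Acl k Ω} {τ : GG k Ω}
    (T : TameD Lc ϖ τ) (x : NN D (Lc.S₁ ∪ {ϖ})) : ((tameAct D T τ T.mem) ^ p) x = x := by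
  apply Subtype.ext
  rw [tameAct_pow]
  apply x.2
  refine tame_fix.2 ⟨pow_mem T.mem p, ?_⟩
  rw [tame_pow T, Lc.prim.pow_eq_one, one_mul]

/-- elements of `FF S₁` in `FF (S₁ ∪ {ϖ})` -/
def tameE (Lc : Loc k Ω p) (ϖ : Acl k Ω) (e : FF Lc.S₁) : FF (Lc.S₁ ∪ {ϖ}) :=
  ⟨e, FF_le (tame_sub Lc ϖ) e.2⟩

theorem tameInc_inc (D : Sec k Ω) (Lc : Loc k Ω p) (ϖ : Acl k Ω) (e : FF Lc.S₁) :
    tameInc D Lc ϖ (inc D Lc.S₁ e) = inc D (Lc.S₁ ∪ {ϖ}) (tameE Lc ϖ e) := rfl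

theorem tameAct_inc (D : Sec k Ω) {Lc : Loc k Ω p} {ϖ : Acl k Ω} {τ : GG k Ω}
    (T : TameD Lc ϖ τ) (g : GG k Ω) (hg : g ∈ Stab Lc.S₁) (e : FF Lc.S₁) :
    tameAct D T g hg (inc D (Lc.S₁ ∪ {ϖ}) (tameE Lc ϖ e)) =
      inc D (Lc.S₁ ∪ {ϖ}) (tameE Lc ϖ e) := by
  apply Subtype.ext
  rw [coe_tameAct, coe_inc]
  show D.s g ((e : Acl k Ω) : Ω) = ((e : Acl k Ω) : Ω)
  rw [D.ext g, e.2 g hg]

/-- the final step: from a membership predicate stable under everything to `TameV` -/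
theorem tame_final (D : Sec k Ω) (Lc : Loc k Ω p) (O₁ : ValuationSubring (NN D Lc.S₁))
    (hov : Over D Lc O₁)
    (R : ∀ (M : Type) [Field M], M → M → Prop)
    (hR : ∀ (M : Type) [Field M] (σ : M ≃+* M) (e x : M), σ e = e → R M e x → R M e (σ x))
    (e : FF Lc.S₁) (hO₁ : ∀ x, x ∈ O₁ ↔ R (NN D Lc.S₁) (inc D Lc.S₁ e) x)
    (h2 : ∀ c₀ ϖ : Acl k Ω, c₀ ∈ FF Lc.S₁ → nm Lc c₀ = 1 → ϖ ^ p = Lc.π * c₀ →
      ∃ τ : GG k Ω, TameD Lc ϖ τ ∧ ∃ O₂ : ValuationSubring (NN D (Lc.S₁ ∪ {ϖ})),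
        (∀ x, x ∈ O₂ ↔ R (NN D (Lc.S₁ ∪ {ϖ})) (inc D (Lc.S₁ ∪ {ϖ}) (tameE Lc ϖ e)) x) ∧
        ∀ x : NN D Lc.S₁,
          R (NN D (Lc.S₁ ∪ {ϖ})) (inc D (Lc.S₁ ∪ {ϖ}) (tameE Lc ϖ e)) (tameInc D Lc ϖ x) ↔
            R (NN D Lc.S₁) (inc D Lc.S₁ e) x) : TameV D Lc O₁ := by
  refine ⟨hov, ?_⟩
  intro c₀ ϖ hc₀ hn hϖ
  obtain ⟨τ, T, O₂, hO₂, hcomp⟩ := h2 c₀ ϖ hc₀ hn hϖ
  refine ⟨O₂, ?_, ?_⟩
  · intro x hx
    have h3 : (⟨x, hx⟩ : NN D (Lc.S₁ ∪ {ϖ})) = tameInc D Lc ϖ x := Subtype.ext rfl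
    rw [h3, hO₂, hcomp, hO₁]
  · intro g hg x hx
    refine ⟨tame_maps D T hg x.2, ?_⟩
    have h3 : (⟨D.s g x, tame_maps D T hg x.2⟩ : NN D (Lc.S₁ ∪ {ϖ})) = tameAct D T g hg x := rfl
    rw [h3, hO₂]
    exact hR _ (tameAct D T g hg) _ x (tameAct_inc D T g hg e) ((hO₂ x).1 hx)

theorem tame_data (Lc : Loc k Ω p) (c₀ ϖ : Acl k Ω) (hc₀ : c₀ ∈ FF Lc.S₁) (hn : nm Lc c₀ = 1)
    (hϖ : ϖ ^ p = Lc.π * c₀) (τ : GG k Ω) (hτ : τ ∈ Stab Lc.S₁) (hm : τ ϖ = Lc.ζ * ϖ) :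
    TameD Lc ϖ τ := by
  refine ⟨?_, ?_, hτ, hm⟩
  · rintro rfl
    rw [zero_pow (Fact.out : p.Prime).ne_zero] at hϖ
    have h1 : Lc.π = 0 ∨ c₀ = 0 := mul_eq_zero.1 hϖ.symm
    rcases h1 with h1 | h1
    · have := Lc.posπ
      rw [h1, map_zero, norm_zero] at this
      exact lt_irrefl _ this
    · rw [h1] at hn
      unfold nm at hn
      rw [map_zero, norm_zero] at hn
      exact zero_ne_one hn
  · rw [hϖ]
    exact mul_mem Lc.memπ hc₀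

end

section

variable {M : Type} [Field M]

theorem tame_sq (σ : M ≃+* M) (x : M) : IsSquare (σ x) ↔ IsSquare x := by
  constructor
  · rintro ⟨y, hy⟩
    refine ⟨σ.symm y, ?_⟩
    rw [← map_mul, ← hy, RingEquiv.symm_apply_apply]
  · rintro ⟨y, hy⟩
    exact ⟨σ y, by rw [← map_mul, ← hy]⟩

theorem tame_cb (σ : M ≃+* M) (x : M) : C3 (σ x) ↔ C3 x := by
  constructor
  · rintro ⟨y, hy⟩
    refine ⟨σ.symm y, ?_⟩
    rw [← map_pow, ← hy, RingEquiv.symm_apply_apply]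
  · rintro ⟨y, hy⟩
    exact ⟨σ y, by rw [← map_pow, ← hy]⟩

theorem tame_Od (σ : M ≃+* M) (e x : M) (he : σ e = e) : Od e (σ x) ↔ Od e x := by
  unfold Od
  rw [tame_sq σ x]
  have : e * σ x = σ (e * x) := by rw [map_mul, he]
  rw [this, tame_sq σ (e * x)]

theorem tame_Od3 (σ : M ≃+* M) (e x : M) (he : σ e = e) : Od3 e (σ x) ↔ Od3 e x := by
  unfold Od3
  rw [tame_cb σ x]
  have h1 : e * σ x = σ (e * x) := by rw [map_mul, he]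
  have h2 : e ^ 2 * σ x = σ (e ^ 2 * x) := by rw [map_mul, map_pow, he]
  rw [h1, h2, tame_cb σ (e * x), tame_cb σ (e ^ 2 * x)]

theorem tame_RigO (σ : M ≃+* M) (e x : M) (he : σ e = e) (h : RigO e x) : RigO e (σ x) := by
  rcases h with ⟨h1, h2⟩ | ⟨h1, h2⟩
  · refine Or.inl ⟨(tame_Od σ e x he).2 h1, ?_⟩
    have : 1 + σ x = σ (1 + x) := by rw [map_add, map_one]
    rw [this, tame_sq]
    exact h2
  · refine Or.inr ⟨fun h => h1 ((tame_Od σ e x he).1 h), ?_⟩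
    intro y hy hy1
    obtain ⟨z, rfl⟩ := σ.surjective y
    have h3 : 1 + σ z = σ (1 + z) := by rw [map_add, map_one]
    have h4 : 1 + σ x * σ z = σ (1 + x * z) := by rw [map_add, map_one, map_mul]
    rw [h4, tame_sq]
    rw [h3, tame_sq] at hy1
    exact h2 z ((tame_Od σ e z he).1 hy) hy1

theorem tame_RigO3 (σ : M ≃+* M) (e x : M) (he : σ e = e) (h : RigO3 e x) : RigO3 e (σ x) := by
  rcases h with ⟨h1, h2⟩ | ⟨h1, h2⟩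
  · refine Or.inl ⟨(tame_Od3 σ e x he).2 h1, ?_⟩
    have : 1 + σ x = σ (1 + x) := by rw [map_add, map_one]
    rw [this, tame_cb]
    exact h2
  · refine Or.inr ⟨fun h => h1 ((tame_Od3 σ e x he).1 h), ?_⟩
    intro y hy hy1
    obtain ⟨z, rfl⟩ := σ.surjective y
    have h3 : 1 + σ z = σ (1 + z) := by rw [map_add, map_one]
    have h4 : 1 + σ x * σ z = σ (1 + x * z) := by rw [map_add, map_one, map_mul]
    rw [h4, tame_cb]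
    rw [h3, tame_cb] at hy1
    exact h2 z ((tame_Od3 σ e z he).1 hy) hy1

end

end Pool.Agent.Helper14.BSC
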